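import Pool.Agent.W200.MR.Stm

/-! # Part AP: sums of `n^{is}` over arithmetic progressions -/

set_option autoImplicit false

open Finset Filter Topology MeasureTheory

namespace Pool.Agent.W657.MR

open Pool.Agent.W200.MR

/-- `y^{is}` -/
noncomputable def E (s y : ℝ) : ℂ := Complex.exp (((s * Real.log y : ℝ) : ℂ) * Complex.I)

/-- the primitive -/
noncomputable def F (s y : ℝ) : ℂ := (y : ℂ) * E s y / (1 + (s : ℂ) * Complex.I)

theorem nE (s y : ℝ) : ‖E s y‖ = 1 := Complex.norm_exp_ofReal_mul_I _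

theorem one_le_d (s : ℝ) : 1 ≤ ‖(1 : ℂ) + (s : ℂ) * Complex.I‖ := by
  have h := Complex.abs_re_le_norm ((1 : ℂ) + (s : ℂ) * Complex.I)
  simpa using h

theorem d_ne (s : ℝ) : (1 : ℂ) + (s : ℂ) * Complex.I ≠ 0 := by
  intro h
  have := one_le_d s
  rw [h, norm_zero] at this
  linarith

theorem nF (s : ℝ) {y : ℝ} (hy : 0 ≤ y) : ‖F s y‖ ≤ y := by
  unfold F
  rw [norm_div, norm_mul, nE, mul_one, Complex.norm_real, Real.norm_of_nonneg hy]
  exact div_le_self hy (one_le_d s)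

theorem dE (s : ℝ) {y : ℝ} (hy : 0 < y) :
    HasDerivAt (E s) (E s y * (((s * y⁻¹ : ℝ) : ℂ) * Complex.I)) y := by
  unfold E
  have h1 := ((Real.hasDerivAt_log hy.ne').const_mul s).ofReal_comp
  exact (h1.mul_const Complex.I).cexp

theorem dF (s : ℝ) {y : ℝ} (hy : 0 < y) : HasDerivAt (F s) (E s y) y := by
  have h1 : HasDerivAt (fun y : ℝ => (y : ℂ)) 1 y := by
    simpa using (hasDerivAt_id y).ofReal_comp
  have h2 := (h1.mul (dE s hy)).div_const (1 + (s : ℂ) * Complex.I)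
  have h3 : (1 * E s y + (y : ℂ) * (E s y * (((s * y⁻¹ : ℝ) : ℂ) * Complex.I))) /
      (1 + (s : ℂ) * Complex.I) = E s y := by
    rw [div_eq_iff (d_ne s)]
    have hyc : (y : ℂ) ≠ 0 := by exact_mod_cast hy.ne'
    push_cast
    field_simp
  rw [h3] at h2
  exact h2

theorem E_sub (s : ℝ) (y n : ℝ) : ‖E s y - E s n‖ ≤ |s| * |Real.log y - Real.log n| := by
  have h1 : E s y - E s n = E s n * (Complex.exp (Complex.I *
      ((s * (Real.log y - Real.log n) : ℝ) : ℂ)) - 1) := by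
    unfold E
    rw [mul_sub, ← Complex.exp_add, mul_one]
    congr 2
    push_cast
    ring
  rw [h1, norm_mul, nE, one_mul]
  refine (Real.norm_exp_I_mul_ofReal_sub_one_le).trans ?_
  rw [Real.norm_eq_abs, abs_mul]

theorem step (s : ℝ) {m a : ℝ} (hm : 0 < m) (ha : 0 ≤ a) :
    ‖(a : ℂ) * E s (m + a) - (F s (m + a) - F s m)‖ ≤ |s| * a / m * a := by
  have hlog : ∀ y ∈ Set.Icc m (m + a), ‖E s y - E s (m + a)‖ ≤ |s| * a / m := by
    intro y hy
    have hy0 : 0 < y := hm.trans_le hy.1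
    refine (E_sub s y (m + a)).trans ?_
    have h1 : |Real.log y - Real.log (m + a)| ≤ a / m := by
      rw [abs_sub_comm, abs_of_nonneg (sub_nonneg.2 (Real.log_le_log hy0 hy.2)),
        ← Real.log_div (by linarith [hy.2]) hy0.ne']
      refine (Real.log_le_sub_one_of_pos (div_pos (by linarith [hy.2]) hy0)).trans ?_
      rw [div_sub_one hy0.ne']
      apply div_le_div₀ ha (by linarith [hy.1]) hm hy.1
    calc |s| * |Real.log y - Real.log (m + a)| ≤ |s| * (a / m) :=
          mul_le_mul_of_nonneg_left h1 (abs_nonneg s)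
      _ = _ := by ring
  have hder : ∀ y ∈ Set.Icc m (m + a), HasDerivWithinAt (fun y : ℝ => F s y - (y : ℂ) * E s (m + a))
      (E s y - 1 * E s (m + a)) (Set.Icc m (m + a)) y := by
    intro y hy
    have h1 : HasDerivAt (fun y : ℝ => (y : ℂ)) 1 y := by
      simpa using (hasDerivAt_id y).ofReal_comp
    exact ((dF s (hm.trans_le hy.1)).sub (h1.mul_const _)).hasDerivWithinAt
  have h := Convex.norm_image_sub_le_of_norm_hasDerivWithin_le hder
    (fun y hy => by rw [one_mul]; exact hlog y hy) (convex_Icc m (m + a))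
    (Set.left_mem_Icc.2 (by linarith)) (Set.right_mem_Icc.2 (by linarith))
  have h2 : ‖m + a - m‖ = a := by rw [add_sub_cancel_left, Real.norm_of_nonneg ha]
  rw [h2] at h
  refine le_trans (le_of_eq ?_) h
  rw [← norm_neg]
  congr 1
  push_cast
  ring

theorem pw_eq (s : ℝ) (n : ℕ) : pw s n = E s (n : ℝ) := rfl

theorem main_ind (s : ℝ) (a b : ℕ) (ha : 1 ≤ a) (hb : 1 ≤ b) (hba : b ≤ a) (J : ℕ) :
    ‖(a : ℂ) * ∑ j ∈ range (J + 2), pw s (b + j * a) - F s ((b + (J + 1) * a : ℕ) : ℝ)‖ ≤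
      2 * a + |s| * (a ^ 2 + a * (harmonic J : ℝ)) := by
  have ha0 : (0 : ℝ) < a := by exact_mod_cast ha
  have hb0 : (0 : ℝ) < b := by exact_mod_cast hb
  have hb1 : (1 : ℝ) ≤ b := by exact_mod_cast hb
  have hba' : (b : ℝ) ≤ a := by exact_mod_cast hba
  induction J with
  | zero =>
    rw [sum_range_succ, sum_range_one, zero_mul, add_zero, one_mul]
    have h1 := step s hb0 ha0.le
    have e1 : ((b + (0 + 1) * a : ℕ) : ℝ) = (b : ℝ) + a := by push_cast; ring
    have e2 : pw s (b + a) = E s ((b : ℝ) + a) := by rw [pw_eq]; push_cast; rfl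
    rw [e1, e2]
    have h2 : (a : ℂ) * (pw s b + E s ((b : ℝ) + a)) - F s ((b : ℝ) + a)
        = ((a : ℂ) * pw s b - F s b) + (((a : ℝ) : ℂ) * E s ((b : ℝ) + a)
          - (F s ((b : ℝ) + a) - F s b)) := by push_cast; ring
    rw [h2]
    refine (norm_add_le _ _).trans ?_
    have h3 : ‖(a : ℂ) * pw s b - F s b‖ ≤ 2 * a := by
      refine (norm_sub_le _ _).trans ?_
      rw [norm_mul, pw_eq, nE, mul_one, Complex.norm_natCast]
      have := nF s hb0.le
      linarith
    have h4 : |s| * a / b * a ≤ |s| * (a ^ 2 + a * ((harmonic 0 : ℚ) : ℝ)) := by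
      have e3 : ((harmonic 0 : ℚ) : ℝ) = 0 := by simp
      rw [e3, mul_zero, add_zero]
      have : |s| * a / b ≤ |s| * a := div_le_self (by positivity) hb1
      nlinarith [abs_nonneg s]
    linarith
  | succ J ih =>
    rw [sum_range_succ]
    have hm : (0 : ℝ) < ((b + (J + 1) * a : ℕ) : ℝ) := by
      have : 0 < b + (J + 1) * a := by positivity
      exact_mod_cast this
    have h1 := step s hm ha0.le
    have e1 : ((b + (J + 1 + 1) * a : ℕ) : ℝ) = ((b + (J + 1) * a : ℕ) : ℝ) + a := by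
      push_cast; ring
    have e2 : pw s (b + (J + 2) * a) = E s (((b + (J + 1) * a : ℕ) : ℝ) + a) := by
      rw [pw_eq, ← e1]
    rw [e1, e2]
    obtain ⟨m, hmm⟩ : ∃ m, m = ((b + (J + 1) * a : ℕ) : ℝ) := ⟨_, rfl⟩
    rw [← hmm] at ih h1 hm ⊢
    obtain ⟨S, hS⟩ : ∃ S, S = ∑ j ∈ range (J + 2), pw s (b + j * a) := ⟨_, rfl⟩
    rw [← hS] at ih ⊢
    have h2 : (a : ℂ) * (S + E s (m + a)) - F s (m + a)
        = ((a : ℂ) * S - F s m) + (((a : ℝ) : ℂ) * E s (m + a)
          - (F s (m + a) - F s m)) := by push_cast; ring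
    rw [h2]
    refine (norm_add_le _ _).trans ?_
    have h3 : |s| * a / m * a ≤ |s| * (a * ((J : ℝ) + 1)⁻¹) := by
      have h5 : ((J : ℝ) + 1) * a ≤ m := by
        rw [hmm]; push_cast; linarith
      have h6 : |s| * a / m * a ≤ |s| * a / (((J : ℝ) + 1) * a) * a := by gcongr
      refine h6.trans (le_of_eq ?_)
      field_simp
    have h4 : ((harmonic (J + 1) : ℚ) : ℝ) = (harmonic J : ℝ) + ((J : ℝ) + 1)⁻¹ := by
      rw [harmonic_succ]; push_cast; ring
    rw [h4]
    have h7 : |s| * (a ^ 2 + a * ((harmonic J : ℝ) + ((J : ℝ) + 1)⁻¹))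
        = |s| * (a ^ 2 + a * (harmonic J : ℝ)) + |s| * (a * ((J : ℝ) + 1)⁻¹) := by ring
    rw [h7]
    linarith

theorem all_ind (s : ℝ) (a b : ℕ) (ha : 1 ≤ a) (hb : 1 ≤ b) (hba : b ≤ a) (J : ℕ) {x : ℝ}
    (hx : 1 ≤ x) (hJ : ((b + J * a : ℕ) : ℝ) ≤ x) :
    ‖(a : ℂ) * ∑ j ∈ range (J + 1), pw s (b + j * a) - F s ((b + J * a : ℕ) : ℝ)‖ ≤
      2 * a + |s| * (a ^ 2 + a * (1 + Real.log x)) := by
  have ha0 : (0 : ℝ) < a := by exact_mod_cast ha
  have hb0 : (0 : ℝ) < b := by exact_mod_cast hb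
  have hba' : (b : ℝ) ≤ a := by exact_mod_cast hba
  have hlx : 0 ≤ Real.log x := Real.log_nonneg hx
  rcases J with _ | J
  · rw [zero_add, sum_range_one, zero_mul, add_zero]
    have h3 : ‖(a : ℂ) * pw s b - F s b‖ ≤ 2 * a := by
      refine (norm_sub_le _ _).trans ?_
      rw [norm_mul, pw_eq, nE, mul_one, Complex.norm_natCast]
      have := nF s hb0.le
      linarith
    have : 0 ≤ |s| * ((a : ℝ) ^ 2 + a * (1 + Real.log x)) := by positivity
    linarith
  · refine (main_ind s a b ha hb hba J).trans ?_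
    have h1 : (harmonic J : ℝ) ≤ 1 + Real.log x := by
      rcases Nat.eq_zero_or_pos J with h0 | h0
      · subst h0
        have : ((harmonic 0 : ℚ) : ℝ) = 0 := by simp
        rw [this]; linarith
      · refine (harmonic_le_one_add_log J).trans ?_
        have h2 : (J : ℝ) ≤ x := by
          refine le_trans ?_ hJ
          have : J ≤ b + (J + 1) * a := by nlinarith
          exact_mod_cast this
        have := Real.log_le_log (by exact_mod_cast h0 : (0 : ℝ) < J) h2
        linarith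
    gcongr

theorem AP_eq (a c N b : ℕ) (ha : 1 ≤ a) (hb : b = if c % a = 0 then a else c % a) (hbN : b ≤ N) :
    AP a c N = (range ((N - b) / a + 1)).image (fun j => b + j * a) := by
  have hlt : c % a < a := Nat.mod_lt _ ha
  have hb1 : 1 ≤ b := by rw [hb]; split_ifs <;> omega
  have hba : b ≤ a := by rw [hb]; split_ifs <;> omega
  have hbm : b % a = c % a := by
    rw [hb]; split_ifs with h
    · rw [Nat.mod_self, h]
    · exact Nat.mod_mod _ _
  ext n
  simp only [AP, mem_filter, mem_Icc, mem_image, mem_range]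
  constructor
  · rintro ⟨⟨h1, h2⟩, h3⟩
    have hn := Nat.div_add_mod n a
    have hbn : b ≤ n := by
      rw [hb]; split_ifs with h
      · have : a ∣ n := Nat.dvd_of_mod_eq_zero (h3.trans h)
        exact Nat.le_of_dvd h1 this
      · rw [← h3]; exact Nat.mod_le _ _
    have hd : a ∣ n - b := (Nat.modEq_iff_dvd' hbn).1 (hbm.trans h3.symm)
    refine ⟨(n - b) / a, Nat.lt_succ_of_le (Nat.div_le_div_right (by omega)), ?_⟩
    rw [Nat.div_mul_cancel hd]
    omega
  · rintro ⟨j, hj, rfl⟩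
    have h1 : j * a ≤ N - b := by
      have : j ≤ (N - b) / a := by omega
      exact (Nat.mul_le_mul_right a this).trans (Nat.div_mul_le_self _ _)
    refine ⟨⟨by omega, by omega⟩, ?_⟩
    rw [Nat.add_mul_mod_self_right, hbm]

theorem t_AP : S_AP := by
  intro s a c x ha hx
  have ha0 : (0 : ℝ) < a := by exact_mod_cast ha
  have hac : (a : ℂ) ≠ 0 := by exact_mod_cast ha0.ne'
  have hlx : 0 ≤ Real.log x := Real.log_nonneg hx
  have hx0 : 0 < x := by linarith
  have hmain : (x : ℂ) * Complex.exp (((s * Real.log x : ℝ) : ℂ) * Complex.I) /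
      ((a : ℂ) * (1 + (s : ℂ) * Complex.I)) = F s x / a := by
    unfold F E
    rw [mul_comm (a : ℂ), div_div]
  rw [hmain]
  obtain ⟨b, hb⟩ : ∃ b, b = if c % a = 0 then a else c % a := ⟨_, rfl⟩
  have hlt : c % a < a := Nat.mod_lt _ ha
  have hb1 : 1 ≤ b := by rw [hb]; split_ifs <;> omega
  have hba : b ≤ a := by rw [hb]; split_ifs <;> omega
  have hba' : (b : ℝ) ≤ a := by exact_mod_cast hba
  rcases le_or_gt b ⌊x⌋₊ with hbN | hbN
  · have hinj : Set.InjOn (fun j => b + j * a) (range ((⌊x⌋₊ - b) / a + 1) : Set ℕ) := by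
      intro i _ j _ h
      simp only at h
      exact Nat.eq_of_mul_eq_mul_right ha (by omega)
    have hSA : SA s a c ⌊x⌋₊ = ∑ j ∈ range ((⌊x⌋₊ - b) / a + 1), pw s (b + j * a) := by
      unfold SA
      rw [AP_eq a c ⌊x⌋₊ b ha hb hbN, sum_image hinj]
    obtain ⟨J, hJ⟩ : ∃ J, J = (⌊x⌋₊ - b) / a := ⟨_, rfl⟩
    rw [hSA, ← hJ]
    have k1 : b + J * a ≤ ⌊x⌋₊ := by
      have : J * a ≤ ⌊x⌋₊ - b := by rw [hJ]; exact Nat.div_mul_le_self _ _
      omega
    have k2 : ⌊x⌋₊ < b + J * a + a := by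
      have e1 := Nat.div_add_mod (⌊x⌋₊ - b) a
      have e2 := Nat.mod_lt (⌊x⌋₊ - b) ha
      rw [← hJ, mul_comm] at e1
      omega
    have k1' : ((b + J * a : ℕ) : ℝ) ≤ x :=
      (by exact_mod_cast k1 : ((b + J * a : ℕ) : ℝ) ≤ (⌊x⌋₊ : ℝ)).trans (Nat.floor_le hx0.le)
    have k2' : x ≤ ((b + J * a : ℕ) : ℝ) + a := by
      have h1 : (⌊x⌋₊ : ℝ) + 1 ≤ ((b + J * a : ℕ) : ℝ) + a := by
        exact_mod_cast (by omega : ⌊x⌋₊ + 1 ≤ b + J * a + a)
      exact (Nat.lt_floor_add_one x).le.trans h1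
    have h1 := all_ind s a b ha hb1 hba J hx k1'
    have hpos : (0 : ℝ) < ((b + J * a : ℕ) : ℝ) := by
      exact_mod_cast (by omega : 0 < b + J * a)
    obtain ⟨m, hm⟩ : ∃ m, m = ((b + J * a : ℕ) : ℝ) := ⟨_, rfl⟩
    rw [← hm] at h1 k1' k2' hpos
    have h2 : ‖F s x - F s m‖ ≤ a := by
      have h3 := Convex.norm_image_sub_le_of_norm_hasDerivWithin_le
        (f := F s) (f' := E s) (C := 1) (s := Set.Icc m x) (x := m) (y := x)
        (fun y hy => (dF s (hpos.trans_le hy.1)).hasDerivWithinAt)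
        (fun y _ => (nE s y).le) (convex_Icc m x) (Set.left_mem_Icc.2 k1')
        (Set.right_mem_Icc.2 k1')
      rw [one_mul, Real.norm_of_nonneg (by linarith)] at h3
      linarith
    obtain ⟨S, hS⟩ : ∃ S, S = ∑ j ∈ range (J + 1), pw s (b + j * a) := ⟨_, rfl⟩
    rw [← hS] at h1 ⊢
    have h3 : S - F s x / a = (((a : ℂ) * S - F s m) - (F s x - F s m)) / a := by
      field_simp
      ring
    rw [h3, norm_div, Complex.norm_natCast, div_le_iff₀ ha0]
    refine (norm_sub_le _ _).trans ?_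
    have h4 : (0 : ℝ) ≤ |s| * a := by positivity
    nlinarith
  · have hem : AP a c ⌊x⌋₊ = ∅ := by
      unfold AP
      rw [filter_eq_empty_iff]
      intro n hn h3
      rw [mem_Icc] at hn
      have hbn : b ≤ n := by
        rw [hb]; split_ifs with h
        · have : a ∣ n := Nat.dvd_of_mod_eq_zero (h3.trans h)
          exact Nat.le_of_dvd hn.1 this
        · rw [← h3]; exact Nat.mod_le _ _
      omega
    have hSA : SA s a c ⌊x⌋₊ = 0 := by
      unfold SA
      rw [hem, sum_empty]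
    have hxa : x ≤ a := by
      have h1 : x < b := by
        have h2 : (⌊x⌋₊ : ℝ) + 1 ≤ b := by exact_mod_cast (by omega : ⌊x⌋₊ + 1 ≤ b)
        exact (Nat.lt_floor_add_one x).trans_le h2
      linarith
    rw [hSA, zero_sub, norm_neg, norm_div, Complex.norm_natCast]
    have h1 : ‖F s x‖ / a ≤ 1 := by
      rw [div_le_one ha0]
      exact (nF s hx0.le).trans hxa
    have h2 : 0 ≤ |s| * ((a : ℝ) + 2 + Real.log x) := by positivity
    linarith

end Pool.Agent.W657.MR
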